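import Pool.Agent.Q278.F18.Struct

namespace Pool.Agent.Q278.F18

theorem base {Q : ℤ → ℤ} (hQ : WRec Q) : Q 3 = 1 ∧ Q 4 = 3 ∧ NData Q 0 := by
  have q1 := hQ.one
  have q2 := hQ.two
  have q3 : Q 3 = 1 := by
    have h := hQ.step 3 (by norm_num) (by norm_num; rw [q2]) (by norm_num; rw [q1])
    norm_num [q1, q2] at h
    exact h
  have q4 : Q 4 = 3 := by
    have h := hQ.step 4 (by norm_num) (by norm_num; rw [q3]) (by norm_num; rw [q2])
    norm_num [q1, q2, q3] at h
    exact h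
  have q5 : Q 5 = 3 := by
    have h := hQ.step 5 (by norm_num) (by norm_num; rw [q4]; norm_num) (by norm_num; rw [q3])
    norm_num [q1, q2, q3, q4] at h
    exact h
  have q6 : Q 6 = 3 := by
    have h := hQ.step 6 (by norm_num) (by norm_num; rw [q5]; norm_num) (by norm_num; rw [q4]; norm_num)
    norm_num [q1, q2, q3, q4, q5] at h
    exact h
  have q7 : Q 7 = 5 := by
    have h := hQ.step 7 (by norm_num) (by norm_num; rw [q6]; norm_num) (by norm_num; rw [q5]; norm_num)
    norm_num [q1, q2, q3, q4, q5, q6] at h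
    exact h
  have q8 : Q 8 = 5 := by
    have h := hQ.step 8 (by norm_num) (by norm_num; rw [q7]; norm_num) (by norm_num; rw [q6]; norm_num)
    norm_num [q1, q2, q3, q4, q5, q6, q7] at h
    exact h
  have q9 : Q 9 = 5 := by
    have h := hQ.step 9 (by norm_num) (by norm_num; rw [q8]; norm_num) (by norm_num; rw [q7]; norm_num)
    norm_num [q1, q2, q3, q4, q5, q6, q7, q8] at h
    exact h
  have q10 : Q 10 = 7 := by
    have h := hQ.step 10 (by norm_num) (by norm_num; rw [q9]; norm_num) (by norm_num; rw [q8]; norm_num)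
    norm_num [q1, q2, q3, q4, q5, q6, q7, q8, q9] at h
    exact h
  refine ⟨q3, q4, fun n => n - 1, ?_, ?_, ?_⟩
  · show Good (fun n => n - 1) 3
    refine ⟨rfl, ?_, ?_, ?_, rfl⟩
    · intro n hn; show n - 1 ≤ n + 1 - 1; omega
    · intro n hn; show n + 1 - 1 ≤ n - 1 + 1; omega
    · intro n hn; show 2 * (n - 1) ≤ n; omega
  · intro n hn
    have e : aa 0 = 3 := rfl
    rw [e] at hn ⊢
    interval_cases n
    · norm_num; exact q4
    · norm_num; exact q6
    · norm_num; exact q8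
    · norm_num; exact q10
  · intro n hn
    have e : aa 0 = 3 := rfl
    rw [e] at hn ⊢
    interval_cases n
    · norm_num; exact q5
    · norm_num; exact q7
    · norm_num; exact q9

theorem nData {Q : ℤ → ℤ} (hQ : WRec Q) (r : ℕ) : NData Q r := by
  induction r with
  | zero => exact (base hQ).2.2
  | succ r ih => exact n_step hQ r (p_step hQ r ih)

theorem pData {Q : ℤ → ℤ} (hQ : WRec Q) (r : ℕ) : PData Q r := p_step hQ r (nData hQ r)

theorem bounds_aux {Q : ℤ → ℤ} (hQ : WRec Q) (r : ℕ) :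
    ∀ k : ℤ, 1 ≤ k → k ≤ 2 * ((aa r : ℤ) - r - 1) → 1 ≤ Q k ∧ Q k ≤ k := by
  induction r with
  | zero =>
    intro k h1 h2
    have e : aa 0 = 3 := rfl
    rw [e] at h2
    norm_num at h2
    obtain ⟨q3, q4, _⟩ := base hQ
    have q1 := hQ.one
    have q2 := hQ.two
    interval_cases k
    · rw [q1]; norm_num
    · rw [q2]; norm_num
    · rw [q3]; norm_num
    · rw [q4]; norm_num
  | succ r ih =>
    intro k h1 h2
    have har := aa_ge r
    have ha' : aa (r + 1) = 4 * aa r - 1 := rfl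
    rcases lt_or_ge (2 * ((aa r : ℤ) - r - 1)) k with hk | hk
    · rcases lt_or_ge (2 * (2 * (aa r : ℤ) - r - 2)) k with hk2 | hk2
      · obtain ⟨h, hG, hz, hall, hhalf⟩ := pData hQ r
        rcases Int.even_or_odd' k with ⟨m, hm | hm⟩
        · obtain ⟨t, ht⟩ : ∃ t : ℕ, (t : ℤ) = m - (2 * (aa r : ℤ) - r - 2) :=
            ⟨(m - (2 * (aa r : ℤ) - r - 2)).toNat, by omega⟩
          obtain ⟨b1, b2, b3⟩ := hall t (by omega)
          have e : k = 2 * (2 * (aa r : ℤ) - r - 2 + t) := by rw [ht, hm]; ring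
          rw [e, b3]
          omega
        · obtain ⟨t, ht⟩ : ∃ t : ℕ, (t : ℤ) = m + 1 - (2 * (aa r : ℤ) - r - 2) :=
            ⟨(m + 1 - (2 * (aa r : ℤ) - r - 2)).toNat, by omega⟩
          obtain ⟨b1, b2, b3⟩ := hall t (by omega)
          have e : k = 2 * (2 * (aa r : ℤ) - r - 2 + t) - 1 := by rw [ht, hm]; ring
          rw [e, b2]
          omega
      · obtain ⟨W, hG, hB, hA⟩ := nData hQ r
        rcases Int.even_or_odd' k with ⟨m, hm | hm⟩
        · obtain ⟨t, ht⟩ : ∃ t : ℕ, (t : ℤ) = m - ((aa r : ℤ) - r - 1) :=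
            ⟨(m - ((aa r : ℤ) - r - 1)).toNat, by omega⟩
          have b := hB t (by omega)
          have g := hG.half t (by omega)
          have e : k = 2 * ((aa r : ℤ) - r - 1 + t) := by rw [ht, hm]; ring
          rw [e, b]
          omega
        · obtain ⟨t, ht⟩ : ∃ t : ℕ, (t : ℤ) = m - ((aa r : ℤ) - r - 1) :=
            ⟨(m - ((aa r : ℤ) - r - 1)).toNat, by omega⟩
          have b := hA t (by omega)
          have g := hG.half t (by omega)
          have e : k = 2 * ((aa r : ℤ) - r - 1 + 1 + t) - 1 := by rw [ht, hm]; ring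
          rw [e, b]
          omega
    · exact ih k h1 hk

theorem bounds {Q : ℤ → ℤ} (hQ : WRec Q) (k : ℤ) (hk : 1 ≤ k) : 1 ≤ Q k ∧ Q k ≤ k := by
  apply bounds_aux hQ k.toNat k hk
  have := aa_ge k.toNat
  omega

/-- Stage-by-stage construction. -/
def FF : ℕ → ℤ → ℤ
  | 0 => fun _ => 0
  | n + 1 => fun k => if k = (n : ℤ) + 1 then
      (if n < 2 then 1 else FF n ((n : ℤ) + 1 - FF n n) + FF n ((n : ℤ) + 1 - FF n ((n : ℤ) - 1)) + (-1) ^ (n + 1))
      else FF n k

theorem FF_le (n : ℕ) (k : ℤ) (hk : k ≤ n) (d : ℕ) : FF (n + d) k = FF n k := by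
  induction d with
  | zero => rfl
  | succ d ih =>
    have : FF (n + (d + 1)) k = if k = ((n + d : ℕ) : ℤ) + 1 then _ else FF (n + d) k := rfl
    rw [this, if_neg (by push_cast; omega), ih]

/-- The constructed sequence. -/
def QQ (k : ℤ) : ℤ := FF k.toNat k

theorem FF_eq (n : ℕ) (k : ℤ) (hk : k ≤ n) : FF n k = QQ k := by
  unfold QQ
  rcases lt_or_ge k 0 with h | h
  · have h0 : k.toNat = 0 := by omega
    rw [h0]
    have := FF_le 0 k (by omega) n
    rw [Nat.zero_add] at this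
    exact this
  · obtain ⟨d, hd⟩ : ∃ d, n = k.toNat + d := ⟨n - k.toNat, by omega⟩
    rw [hd]
    exact FF_le _ k (by omega) d

theorem QQ_rec : WRec QQ where
  one := by decide
  two := by decide
  step := by
    intro n hn h1 h2
    obtain ⟨m, rfl⟩ : ∃ m : ℕ, n = (m : ℤ) + 1 := ⟨(n - 1).toNat, by omega⟩
    have e1 : ((m : ℤ) + 1 - 1) = m := by ring
    have e2 : ((m : ℤ) + 1 - 2) = (m : ℤ) - 1 := by ring
    rw [e1] at h1 ⊢
    rw [e2] at h2 ⊢
    have e3 : ((m : ℤ) + 1).toNat = m + 1 := by omega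
    have : QQ ((m : ℤ) + 1) = FF (m + 1) ((m : ℤ) + 1) := by
      unfold QQ; rw [e3]
    rw [this, e3]
    have : FF (m + 1) ((m : ℤ) + 1) = if (m : ℤ) + 1 = (m : ℤ) + 1 then
      (if m < 2 then 1 else FF m ((m : ℤ) + 1 - FF m m) + FF m ((m : ℤ) + 1 - FF m ((m : ℤ) - 1)) + (-1) ^ (m + 1))
      else FF m ((m : ℤ) + 1) := rfl
    rw [this, if_pos rfl, if_neg (by omega)]
    rw [FF_eq m m (le_refl _), FF_eq m ((m : ℤ) - 1) (by omega), FF_eq m _ (by omega), FF_eq m _ (by omega)]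

end Pool.Agent.Q278.F18
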