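import Mathlib

namespace Pool.Agent.Q278.F18

/-- The two-head recursion attached to a slowly growing sequence `W`. -/
def hh (W : ℕ → ℕ) : ℕ → ℕ
  | 0 => 0
  | t + 1 => W (hh W t) + W (t - hh W t)

structure Good (W : ℕ → ℕ) (L : ℕ) : Prop where
  zero : W 0 = 0
  mono : ∀ n < L, W n ≤ W (n + 1)
  slow : ∀ n < L, W (n + 1) ≤ W n + 1
  half : ∀ n < L, 2 * W n ≤ n
  top : 2 * W L = L + 1

theorem Good.zmono {W : ℕ → ℕ} {L : ℕ} (hG : Good W L) : ∀ k ≤ L, (L - k) + W L ≤ L + W (L - k) := by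
  intro k
  induction k with
  | zero => intro _; simp
  | succ k ih =>
    intro hk
    have h1 := ih (by omega)
    have h2 := hG.slow (L - (k + 1)) (by omega)
    have h3 : L - (k + 1) + 1 = L - k := by omega
    rw [h3] at h2
    omega

theorem Good.no_stop {W : ℕ → ℕ} {L x : ℕ} (hG : Good W L) (hx : x ≤ L) (h : W x + W L = x) : False := by
  have h1 := hG.zmono (L - x) (by omega)
  have h2 : L - (L - x) = x := by omega
  rw [h2] at h1
  have h3 := hG.top
  omega

def St (W : ℕ → ℕ) (L t : ℕ) : Prop :=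
  ∃ x y, hh W t = x ∧ t = x + y ∧ y ≤ L ∧
    ((W x + W y = x) ∨ (W x + W y = x + 1 ∧ 1 ≤ y ∧ W y = W (y - 1) + 1)) ∧ (1 ≤ t → 2 * x + 1 ≤ t)

theorem hh_succ {W : ℕ → ℕ} {t x y : ℕ} (h : hh W t = x) (ht : t = x + y) : hh W (t + 1) = W x + W y := by
  have h2 : hh W (t + 1) = W (hh W t) + W (t - hh W t) := rfl
  rw [h2, h]
  have : t - x = y := by omega
  rw [this]

theorem st_all {W : ℕ → ℕ} {L : ℕ} (hG : Good W L) : ∀ t, t + 1 ≤ 2 * L → St W L t := by
  intro t
  induction t with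
  | zero =>
    intro _
    exact ⟨0, 0, rfl, rfl, Nat.zero_le _, Or.inl (by rw [hG.zero]), fun h => by omega⟩
  | succ t ih =>
    intro ht
    obtain ⟨x, y, hx, hxy, hy, hc, hp⟩ := ih (by omega)
    have hs := hh_succ hx hxy
    rcases hc with h1 | ⟨h1, h2, h3⟩
    · have hyL : y < L := by
        rcases Nat.lt_or_ge y L with h | h
        · exact h
        · exfalso
          have : y = L := by omega
          subst this
          exact hG.no_stop (by omega) h1
      refine ⟨x, y + 1, by rw [hs, h1], by omega, by omega, ?_, fun _ => ?_⟩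
      · have m1 := hG.mono y hyL
        have m2 := hG.slow y hyL
        rcases Nat.lt_or_ge (W y) (W (y + 1)) with h | h
        · right
          refine ⟨by omega, by omega, ?_⟩
          have : y + 1 - 1 = y := by omega
          rw [this]; omega
        · left; omega
      · rcases Nat.eq_zero_or_pos t with h0 | h0
        · omega
        · have := hp h0; omega
    · have ht1 : 1 ≤ t := by omega
      have hp' := hp ht1
      have hxL : x < L := by omega
      have m1 := hG.mono x hxL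
      have m2 := hG.slow x hxL
      refine ⟨x + 1, y, by rw [hs, h1], by omega, hy, ?_, fun _ => ?_⟩
      · rcases Nat.lt_or_ge (W x) (W (x + 1)) with h | h
        · right; exact ⟨by omega, h2, h3⟩
        · left; omega
      · rcases Nat.lt_or_ge (2 * x + 1) t with h | h
        · omega
        · exfalso
          have hy' : y = x + 1 := by omega
          subst hy'
          have k1 := hG.half x (by omega)
          have k2 := hG.half (x + 1) (by omega)
          omega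

theorem hh_top {W : ℕ → ℕ} {L : ℕ} (hL : 1 ≤ L) (hG : Good W L) : hh W (2 * L) = L := by
  obtain ⟨x, y, hx, hxy, hy, hc, hp⟩ := st_all hG (2 * L - 1) (by omega)
  have hp' := hp (by omega)
  have hyL : y = L := by omega
  have hxL : x + 1 = L := by omega
  have hs := hh_succ hx hxy
  have e : 2 * L - 1 + 1 = 2 * L := by omega
  rw [e] at hs
  rcases hc with h1 | ⟨h1, _, _⟩
  · exfalso
    subst hyL
    exact hG.no_stop (by omega) h1
  · rw [hs, h1, hxL]

theorem hh_top1 {W : ℕ → ℕ} {L : ℕ} (hL : 1 ≤ L) (hG : Good W L) : hh W (2 * L + 1) = L + 1 := by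
  have h := hh_succ (hh_top hL hG) (show 2 * L = L + L by omega)
  rw [h]
  have := hG.top
  omega

/-- Everything needed about the state at time `t ≤ 2L`. -/
theorem hh_le {W : ℕ → ℕ} {L : ℕ} (hL : 1 ≤ L) (hG : Good W L) (t : ℕ) (ht : t ≤ 2 * L) :
    hh W t ≤ L ∧ hh W t ≤ t ∧ t - hh W t ≤ L ∧ 2 * hh W t ≤ t := by
  rcases Nat.lt_or_ge t (2 * L) with h | h
  · obtain ⟨x, y, hx, hxy, hy, hc, hp⟩ := st_all hG t (by omega)
    rcases Nat.eq_zero_or_pos t with h0 | h0
    · subst h0; rw [hx]; omega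
    · have := hp h0
      rw [hx]; omega
  · have : t = 2 * L := by omega
    subst this
    rw [hh_top hL hG]; omega

theorem hh_step {W : ℕ → ℕ} {L : ℕ} (hG : Good W L) (t : ℕ) (ht : t < 2 * L) :
    hh W t ≤ hh W (t + 1) ∧ hh W (t + 1) ≤ hh W t + 1 := by
  obtain ⟨x, y, hx, hxy, hy, hc, hp⟩ := st_all hG t (by omega)
  have hs := hh_succ hx hxy
  rw [hs, hx]
  rcases hc with h1 | ⟨h1, _, _⟩ <;> omega

theorem hh_half {W : ℕ → ℕ} {L : ℕ} (hG : Good W L) (t : ℕ) (h1 : 1 ≤ t) (ht : t < 2 * L) :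
    2 * hh W t + 1 ≤ t := by
  obtain ⟨x, y, hx, hxy, hy, hc, hp⟩ := st_all hG t (by omega)
  rw [hx]; exact hp h1

/-- the key cancellation -/
theorem hh_cancel {W : ℕ → ℕ} {L : ℕ} (hG : Good W L) (t : ℕ) (ht : t < 2 * L) :
    hh W (t + 1) ≤ t ∧ hh W t = W (hh W t) + W (t - hh W (t + 1)) := by
  obtain ⟨x, y, hx, hxy, hy, hc, hp⟩ := st_all hG t (by omega)
  have hs := hh_succ hx hxy
  rw [hs, hx]
  rcases hc with h1 | ⟨h1, h2, h3⟩
  · rw [h1]
    refine ⟨by omega, ?_⟩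
    have : t - x = y := by omega
    rw [this, h1]
  · rw [h1]
    refine ⟨by omega, ?_⟩
    have : t - (x + 1) = y - 1 := by omega
    rw [this]; omega

theorem goodP {W : ℕ → ℕ} {L : ℕ} (hL : 1 ≤ L) (hG : Good W L) :
    Good (fun n => hh W (n + 1)) (2 * L - 1) where
  zero := by
    have h := hh_succ (W := W) (t := 0) (x := 0) (y := 0) rfl rfl
    simp only [hG.zero] at h
    exact h
  mono := fun n hn => (hh_step hG (n + 1) (by omega)).1
  slow := fun n hn => (hh_step hG (n + 1) (by omega)).2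
  half := fun n hn => by
    have := hh_half hG (n + 1) (by omega) (by omega)
    show 2 * hh W (n + 1) ≤ n
    omega
  top := by
    show 2 * hh W (2 * L - 1 + 1) = 2 * L - 1 + 1
    have e : 2 * L - 1 + 1 = 2 * L := by omega
    rw [e, hh_top hL hG]

theorem goodN {W : ℕ → ℕ} {L : ℕ} (hL : 1 ≤ L) (hG : Good W L) :
    Good (hh W) (2 * L + 1) where
  zero := rfl
  mono := fun n hn => by
    rcases Nat.lt_or_ge n (2 * L) with h | h
    · exact (hh_step hG n h).1
    · have : n = 2 * L := by omega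
      subst this
      rw [hh_top hL hG, hh_top1 hL hG]; omega
  slow := fun n hn => by
    rcases Nat.lt_or_ge n (2 * L) with h | h
    · exact (hh_step hG n h).2
    · have : n = 2 * L := by omega
      subst this
      rw [hh_top hL hG, hh_top1 hL hG]
  half := fun n hn => (hh_le hL hG n (by omega)).2.2.2
  top := by rw [hh_top1 hL hG]; ring

/-- `a_r = (2 * 4 ^ (r+1) + 1) / 3`. -/
def aa : ℕ → ℕ
  | 0 => 3
  | r + 1 => 4 * aa r - 1

theorem aa_closed (r : ℕ) : 3 * aa r = 2 * 4 ^ (r + 1) + 1 := by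
  induction r with
  | zero => rfl
  | succ r ih =>
    have h1 : aa (r + 1) = 4 * aa r - 1 := rfl
    have h2 : 4 ^ (r + 1 + 1) = 4 * 4 ^ (r + 1) := by ring
    have h3 : 0 < 4 ^ (r + 1) := by positivity
    omega

theorem aa_ge (r : ℕ) : 2 * r + 3 ≤ aa r := by
  induction r with
  | zero => decide
  | succ r ih =>
    have h1 : aa (r + 1) = 4 * aa r - 1 := rfl
    omega

/-- The weak form of the recursion. -/
structure WRec (Q : ℤ → ℤ) : Prop where
  one : Q 1 = 1
  two : Q 2 = 1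
  step : ∀ n : ℤ, 3 ≤ n → 1 ≤ Q (n - 1) → 1 ≤ Q (n - 2) →
    Q n = Q (n - Q (n - 1)) + Q (n - Q (n - 2)) + (-1) ^ n.toNat

theorem negpow_odd (m : ℤ) (hm : 1 ≤ m) : (-1 : ℤ) ^ (2 * m - 1).toNat = -1 := by
  apply Odd.neg_one_pow
  refine ⟨(m - 1).toNat, ?_⟩
  omega

theorem negpow_even (m : ℤ) (hm : 1 ≤ m) : (-1 : ℤ) ^ (2 * m).toNat = 1 := by
  apply Even.neg_one_pow
  refine ⟨m.toNat, ?_⟩
  omega

theorem WRec.ra {Q : ℤ → ℤ} (h : WRec Q) (m x y : ℤ) (hm : 2 ≤ m) (hx : 1 ≤ x) (hy : 1 ≤ y)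
    (e1 : Q (2 * (m - 1) - 1) = 2 * x - 1) (e2 : Q (2 * (m - 1)) = 2 * y - 1) :
    Q (2 * m - 1) = Q (2 * (m - y)) + Q (2 * (m - x)) - 1 := by
  have i1 : (2 * m - 1 - 1 : ℤ) = 2 * (m - 1) := by ring
  have i2 : (2 * m - 1 - 2 : ℤ) = 2 * (m - 1) - 1 := by ring
  have := h.step (2 * m - 1) (by omega) (by rw [i1, e2]; omega) (by rw [i2, e1]; omega)
  rw [i1, i2, e1, e2, negpow_odd m (by omega)] at this
  rw [this]
  have j1 : (2 * m - 1 - (2 * y - 1) : ℤ) = 2 * (m - y) := by ring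
  have j2 : (2 * m - 1 - (2 * x - 1) : ℤ) = 2 * (m - x) := by ring
  rw [j1, j2]; ring

theorem WRec.rb {Q : ℤ → ℤ} (h : WRec Q) (m x y : ℤ) (hm : 2 ≤ m) (hx : 1 ≤ x) (hy : 1 ≤ y)
    (e1 : Q (2 * m - 1) = 2 * x - 1) (e2 : Q (2 * (m - 1)) = 2 * y - 1) :
    Q (2 * m) = Q (2 * (m - x + 1) - 1) + Q (2 * (m - y + 1) - 1) + 1 := by
  have i2 : (2 * m - 2 : ℤ) = 2 * (m - 1) := by ring
  have := h.step (2 * m) (by omega) (by rw [e1]; omega) (by rw [i2, e2]; omega)
  rw [i2, e1, e2, negpow_even m (by omega)] at this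
  rw [this]
  have j1 : (2 * m - (2 * x - 1) : ℤ) = 2 * (m - x + 1) - 1 := by ring
  have j2 : (2 * m - (2 * y - 1) : ℤ) = 2 * (m - y + 1) - 1 := by ring
  rw [j1, j2]

/-- Data on the interval before `u_r`. -/
def NData (Q : ℤ → ℤ) (r : ℕ) : Prop :=
  ∃ W : ℕ → ℕ, Good W (aa r) ∧
    (∀ n : ℕ, n ≤ aa r → Q (2 * ((aa r : ℤ) - r - 1 + n)) = aa r + 2 * W n) ∧
    (∀ n : ℕ, n < aa r → Q (2 * ((aa r : ℤ) - r - 1 + 1 + n) - 1) = aa r + 2 * n - 2 * W n)

/-- Data on the interval from `u_r`. -/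
def PData (Q : ℤ → ℤ) (r : ℕ) : Prop :=
  ∃ h : ℕ → ℕ, Good (fun n => h (n + 1)) (2 * aa r - 1) ∧ h 0 = 0 ∧
    (∀ t : ℕ, t ≤ 2 * aa r → h t ≤ t ∧
      Q (2 * (2 * (aa r : ℤ) - r - 2 + t) - 1) = 2 * (aa r + h t) - 1 ∧
      Q (2 * (2 * (aa r : ℤ) - r - 2 + t)) = 2 * (aa r + t - h t) - 1) ∧
    (∀ t : ℕ, 1 ≤ t → t < 2 * aa r → 2 * h t + 1 ≤ t)

theorem p_step {Q : ℤ → ℤ} (hQ : WRec Q) (r : ℕ) (hN : NData Q r) : PData Q r := by
  obtain ⟨W, hG, hB, hA⟩ := hN
  set a := aa r with ha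
  have har := aa_ge r
  rw [← ha] at har
  have hL : 1 ≤ a := by omega
  refine ⟨hh W, goodP hL hG, rfl, ?_, fun t h1 h2 => hh_half hG t h1 h2⟩
  have key : ∀ t : ℕ, t ≤ 2 * a → 
      Q (2 * (2 * (a : ℤ) - r - 2 + t) - 1) = 2 * (a + hh W t) - 1 ∧
      Q (2 * (2 * (a : ℤ) - r - 2 + t)) = 2 * (a + t - hh W t) - 1 := by
    intro t
    induction t with
    | zero =>
      intro _
      have g1 := hG.half (a - 1) (by omega)
      have g2 := hG.half (a - 2) (by omega)
      have g3 := hG.slow (a - 1) (by omega)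
      have g4 := hG.slow (a - 2) (by omega)
      have e1 : a - 1 + 1 = a := by omega
      have e2 : a - 2 + 1 = a - 1 := by omega
      rw [e1] at g3
      rw [e2] at g4
      have g5 := hG.top
      have b1 := hB (a - 1) (by omega)
      have b2 := hA (a - 2) (by omega)
      have c1 : ((a - 1 : ℕ) : ℤ) = a - 1 := by omega
      have c2 : ((a - 2 : ℕ) : ℤ) = a - 2 := by omega
      rw [c1] at b1
      rw [c2] at b2
      have d1 : (2 * ((a : ℤ) - r - 1 + (a - 1)) : ℤ) = 2 * (2 * (a : ℤ) - r - 2 + (0 : ℕ)) := by push_cast; ring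
      have d2 : (2 * ((a : ℤ) - r - 1 + 1 + (a - 2)) - 1 : ℤ) = 2 * (2 * (a : ℤ) - r - 2 + (0 : ℕ)) - 1 := by push_cast; ring
      rw [d1] at b1
      rw [d2] at b2
      have z : hh W 0 = 0 := rfl
      rw [b1, b2, z]
      constructor <;> push_cast <;> omega
    | succ t ih =>
      intro ht
      obtain ⟨i1, i2⟩ := ih (by omega)
      obtain ⟨l1, l2, l3, l4⟩ := hh_le hL hG t (by omega)
      obtain ⟨k1, k2⟩ := hh_cancel hG t (by omega)
      obtain ⟨s1, s2⟩ := hh_step hG t (by omega)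
      have l5 : 2 * hh W t + 1 ≤ 2 * a := by
        rcases Nat.eq_zero_or_pos t with h0 | h0
        · subst h0
          have z : hh W 0 = 0 := rfl
          rw [z]; omega
        · have := hh_half hG t h0 (by omega)
          omega
      have hs : hh W (t + 1) = W (hh W t) + W (t - hh W t) := rfl
      have q1 : (2 * (a : ℤ) - r - 2 + (t + 1 : ℕ)) - 1 = 2 * (a : ℤ) - r - 2 + t := by push_cast; ring
      have A1 : Q (2 * (2 * (a : ℤ) - r - 2 + (t + 1 : ℕ)) - 1) = 2 * (a + hh W (t + 1)) - 1 := by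
        have h := hQ.ra (2 * (a : ℤ) - r - 2 + (t + 1 : ℕ)) (a + hh W t) (a + t - hh W t)
          (by omega) (by omega) (by omega) (by rw [q1]; exact i1) (by rw [q1]; exact i2)
        rw [h]
        have b1 := hB (hh W t) (by omega)
        have b2 := hB (t - hh W t) (by omega)
        have c2 : ((t - hh W t : ℕ) : ℤ) = t - hh W t := by omega
        rw [c2] at b2
        have d1 : (2 * ((2 * (a : ℤ) - r - 2 + (t + 1 : ℕ)) - (a + t - hh W t)) : ℤ) = 2 * ((a : ℤ) - r - 1 + hh W t) := by push_cast; ring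
        have d2 : (2 * ((2 * (a : ℤ) - r - 2 + (t + 1 : ℕ)) - (a + hh W t)) : ℤ) = 2 * ((a : ℤ) - r - 1 + (t - hh W t)) := by push_cast; ring
        rw [d1, d2, b1, b2, hs]
        push_cast; ring
      refine ⟨A1, ?_⟩
      have h := hQ.rb (2 * (a : ℤ) - r - 2 + (t + 1 : ℕ)) (a + hh W (t + 1)) (a + t - hh W t)
          (by omega) (by omega) (by omega) A1 (by rw [q1]; exact i2)
      rw [h]
      have b1 := hA (hh W t) (by omega)
      have l6 := (hh_le hL hG (t + 1) (by omega)).2.2.1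
      have b2 := hA (t - hh W (t + 1)) (by omega)
      have c2 : ((t - hh W (t + 1) : ℕ) : ℤ) = t - hh W (t + 1) := by omega
      rw [c2] at b2
      have d1 : (2 * ((2 * (a : ℤ) - r - 2 + (t + 1 : ℕ)) - (a + hh W (t + 1)) + 1) - 1 : ℤ)
          = 2 * ((a : ℤ) - r - 1 + 1 + (t - hh W (t + 1))) - 1 := by push_cast; ring
      have d2 : (2 * ((2 * (a : ℤ) - r - 2 + (t + 1 : ℕ)) - (a + t - hh W t) + 1) - 1 : ℤ)
          = 2 * ((a : ℤ) - r - 1 + 1 + hh W t) - 1 := by push_cast; ring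
      rw [d1, d2, b1, b2]
      have k3 : (hh W t : ℤ) = W (hh W t) + W (t - hh W (t + 1)) := by exact_mod_cast k2
      push_cast
      linarith
  intro t ht
  exact ⟨(hh_le hL hG t ht).2.1, key t ht⟩

theorem n_step {Q : ℤ → ℤ} (hQ : WRec Q) (r : ℕ) (hP : PData Q r) : NData Q (r + 1) := by
  obtain ⟨h0, hG, hz, hall, _⟩ := hP
  have har := aa_ge r
  have ha' : aa (r + 1) = 4 * aa r - 1 := rfl
  set a := aa r with ha
  set W : ℕ → ℕ := fun n => h0 (n + 1) with hW
  have hL : 1 ≤ 2 * a - 1 := by omega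
  have hGn := goodN hL hG
  have eL : 2 * (2 * a - 1) + 1 = aa (r + 1) := by rw [ha']; omega
  rw [eL] at hGn
  have key : ∀ t : ℕ, t ≤ 2 * (2 * a - 1) →
      Q (2 * (4 * (a : ℤ) - r - 3 + t)) = 2 * (2 * a + hh W t) - 1 ∧
      Q (2 * (4 * (a : ℤ) - r - 2 + t) - 1) = 2 * (2 * a + t - hh W t) - 1 := by
    intro t
    induction t with
    | zero =>
      intro _
      have z : hh W 0 = 0 := rfl
      rw [z]
      have f1 := (hall (2 * a - 1) (by omega)).2.2
      have f2 := (hall (2 * a) (by omega)).2.1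
      have g1 := hG.top
      have g2 := hG.slow (2 * a - 1 - 1) (by omega)
      have g3 := hG.half (2 * a - 1 - 1) (by omega)
      have e1 : 2 * a - 1 - 1 + 1 = 2 * a - 1 := by omega
      rw [e1] at g2
      have w1 : W (2 * a - 1) = h0 (2 * a) := by
        show h0 (2 * a - 1 + 1) = h0 (2 * a)
        have : 2 * a - 1 + 1 = 2 * a := by omega
        rw [this]
      have w2 : W (2 * a - 1 - 1) = h0 (2 * a - 1) := by
        show h0 (2 * a - 1 - 1 + 1) = h0 (2 * a - 1)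
        rw [e1]
      rw [w1] at g1 g2
      rw [w2] at g2 g3
      have c1 : ((2 * a - 1 : ℕ) : ℤ) = 2 * a - 1 := by omega
      rw [c1] at f1
      have d1 : (2 * (2 * (a : ℤ) - r - 2 + (2 * a - 1)) : ℤ) = 2 * (4 * (a : ℤ) - r - 3 + (0 : ℕ)) := by push_cast; ring
      have d2 : (2 * (2 * (a : ℤ) - r - 2 + (2 * a : ℕ)) - 1 : ℤ) = 2 * (4 * (a : ℤ) - r - 2 + (0 : ℕ)) - 1 := by push_cast; ring
      rw [d1] at f1
      rw [d2] at f2
      rw [f1, f2]
      constructor <;> push_cast <;> omega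
    | succ t ih =>
      intro ht
      obtain ⟨i1, i2⟩ := ih (by omega)
      obtain ⟨l1, l2, l3, l4⟩ := hh_le hL hG t (by omega)
      obtain ⟨k1, k2⟩ := hh_cancel hG t (by omega)
      obtain ⟨s1, s2⟩ := hh_step hG t (by omega)
      have hs : hh W (t + 1) = W (hh W t) + W (t - hh W t) := rfl
      have q1 : (4 * (a : ℤ) - r - 2 + t) - 1 = 4 * (a : ℤ) - r - 3 + t := by ring
      have A1 : Q (2 * (4 * (a : ℤ) - r - 3 + (t + 1 : ℕ))) = 2 * (2 * a + hh W (t + 1)) - 1 := by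
        have h := hQ.rb (4 * (a : ℤ) - r - 2 + t) (2 * a + t - hh W t) (2 * a + hh W t)
          (by omega) (by omega) (by omega) i2 (by rw [q1]; exact i1)
        have d0 : (2 * (4 * (a : ℤ) - r - 3 + (t + 1 : ℕ)) : ℤ) = 2 * (4 * (a : ℤ) - r - 2 + t) := by push_cast; ring
        rw [d0, h]
        have b1 := (hall (hh W t + 1) (by omega)).2.1
        have b2 := (hall (t - hh W t + 1) (by omega)).2.1
        have c2 : ((t - hh W t + 1 : ℕ) : ℤ) = t - hh W t + 1 := by omega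
        rw [c2] at b2
        have d1 : (2 * ((4 * (a : ℤ) - r - 2 + t) - (2 * a + t - hh W t) + 1) - 1 : ℤ)
            = 2 * (2 * (a : ℤ) - r - 2 + (hh W t + 1 : ℕ)) - 1 := by push_cast; ring
        have d2 : (2 * ((4 * (a : ℤ) - r - 2 + t) - (2 * a + hh W t) + 1) - 1 : ℤ)
            = 2 * (2 * (a : ℤ) - r - 2 + (t - hh W t + 1)) - 1 := by push_cast; ring
        rw [d1, d2, b1, b2, hs]
        show _ = 2 * (2 * (a : ℤ) + ((h0 (hh W t + 1) + h0 (t - hh W t + 1) : ℕ) : ℤ)) - 1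
        push_cast; ring
      refine ⟨A1, ?_⟩
      have q2 : (4 * (a : ℤ) - r - 2 + (t + 1 : ℕ)) - 1 = 4 * (a : ℤ) - r - 2 + t := by push_cast; ring
      have q3 : (4 * (a : ℤ) - r - 2 + t) = 4 * (a : ℤ) - r - 3 + (t + 1 : ℕ) := by push_cast; ring
      have h := hQ.ra (4 * (a : ℤ) - r - 2 + (t + 1 : ℕ)) (2 * a + t - hh W t) (2 * a + hh W (t + 1))
          (by omega) (by omega) (by omega) (by rw [q2]; exact i2) (by rw [q2, q3]; exact A1)
      rw [h]
      have b1 := (hall (t - hh W (t + 1) + 1) (by omega)).2.2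
      have b2 := (hall (hh W t + 1) (by omega)).2.2
      have c2 : ((t - hh W (t + 1) + 1 : ℕ) : ℤ) = t - hh W (t + 1) + 1 := by omega
      rw [c2] at b1
      have d1 : (2 * ((4 * (a : ℤ) - r - 2 + (t + 1 : ℕ)) - (2 * a + hh W (t + 1))) : ℤ)
          = 2 * (2 * (a : ℤ) - r - 2 + (t - hh W (t + 1) + 1)) := by push_cast; ring
      have d2 : (2 * ((4 * (a : ℤ) - r - 2 + (t + 1 : ℕ)) - (2 * a + t - hh W t)) : ℤ)
          = 2 * (2 * (a : ℤ) - r - 2 + (hh W t + 1 : ℕ)) := by push_cast; ring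
      rw [d1, d2, b1, b2]
      have k3 : (hh W t : ℤ) = h0 (hh W t + 1) + h0 (t - hh W (t + 1) + 1) := by exact_mod_cast k2
      push_cast
      linarith
  have ca : ((aa (r + 1) : ℕ) : ℤ) = 4 * a - 1 := by rw [ha']; omega
  refine ⟨hh W, hGn, ?_, ?_⟩
  · intro n hn
    have d : (2 * ((aa (r + 1) : ℤ) - ((r + 1 : ℕ) : ℤ) - 1 + n) : ℤ) = 2 * (4 * (a : ℤ) - r - 3 + n) := by
      rw [ca]; push_cast; ring
    rw [d]
    rcases Nat.lt_or_ge (2 * (2 * a - 1)) n with h | h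
    · have hn' : n = 2 * (2 * a - 1) + 1 := by omega
      have htop := hh_top hL hG
      have htop1 := hh_top1 hL hG
      obtain ⟨i1, i2⟩ := key (2 * (2 * a - 1)) (le_refl _)
      rw [htop] at i1 i2
      have cc : ((2 * a - 1 : ℕ) : ℤ) = 2 * a - 1 := by omega
      have cc2 : ((2 * (2 * a - 1) : ℕ) : ℤ) = 2 * (2 * a - 1) := by omega
      rw [cc, cc2] at i1 i2
      rw [hn', htop1]
      have q1 : (4 * (a : ℤ) - r - 2 + 2 * (2 * a - 1)) - 1 = 4 * (a : ℤ) - r - 3 + 2 * (2 * a - 1) := by ring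
      have h := hQ.rb (4 * (a : ℤ) - r - 2 + 2 * (2 * a - 1)) (2 * a + (2 * a - 1)) (2 * a + (2 * a - 1))
          (by omega) (by omega) (by omega) (by rw [i2]; ring) (by rw [q1]; exact i1)
      have d0 : (2 * (4 * (a : ℤ) - r - 3 + (2 * (2 * a - 1) + 1 : ℕ)) : ℤ) = 2 * (4 * (a : ℤ) - r - 2 + 2 * (2 * a - 1)) := by
        have : ((2 * (2 * a - 1) + 1 : ℕ) : ℤ) = 2 * (2 * a - 1) + 1 := by omega
        rw [this]; ring
      rw [d0, h]
      have b1 := (hall (2 * a) (by omega)).2.1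
      have w1 := hG.top
      have w2 : W (2 * a - 1) = h0 (2 * a) := by
        show h0 (2 * a - 1 + 1) = h0 (2 * a)
        have : 2 * a - 1 + 1 = 2 * a := by omega
        rw [this]
      rw [w2] at w1
      have d1 : (2 * ((4 * (a : ℤ) - r - 2 + 2 * (2 * a - 1)) - (2 * a + (2 * a - 1)) + 1) - 1 : ℤ)
            = 2 * (2 * (a : ℤ) - r - 2 + (2 * a : ℕ)) - 1 := by push_cast; ring
      rw [d1, b1, ca]
      omega
    · have := (key n h).1
      rw [this, ca]; ring
  · intro n hn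
    have d : (2 * ((aa (r + 1) : ℤ) - ((r + 1 : ℕ) : ℤ) - 1 + 1 + n) - 1 : ℤ) = 2 * (4 * (a : ℤ) - r - 2 + n) - 1 := by
      rw [ca]; push_cast; ring
    rw [d, (key n (by omega)).2, ca]
    ring

end Pool.Agent.Q278.F18
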